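import Pool.Agent.N699.RP.Law
import Mathlib.NumberTheory.Chebyshev

set_option autoImplicit false

/-! The rational points with prime denominators up to `Q`, with equal masses. -/

namespace Pool.Agent.N699.RP
open Finset
open Pool.Agent.H807R2.Dav
open Pool.Agent.H373R2.T7

/-- the primes up to `Q` -/
def prs (Q : ℕ) : Finset ℕ := (range (Q + 1)).filter Nat.Prime

lemma card_prs (Q : ℕ) (hQ : 20 ≤ Q) : (Q : ℝ) / (2 * Real.log Q) ≤ ((prs Q).card : ℝ) := by
  have hQr : (20 : ℝ) ≤ Q := by exact_mod_cast hQ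
  have hlog : 0 < Real.log Q := Real.log_pos (by linarith)
  have h1 := Chebyshev.psi_le_primeCounting_mul_log Q
  have h2 := Chebyshev.psi_ge Q
  have h3 : Real.log (Q + 1) ≤ (Q : ℝ) * (Real.log 2 - 1 / 2) := by
    have e1 : Real.log ((Q : ℝ) + 1) ≤ Real.log 21 + ((Q : ℝ) + 1) / 21 - 1 := by
      have e2 : ((Q : ℝ) + 1) = 21 * (((Q : ℝ) + 1) / 21) := by ring
      have e3 := Real.log_le_sub_one_of_pos (x := ((Q : ℝ) + 1) / 21) (by positivity)
      have e4 : Real.log ((Q : ℝ) + 1) = Real.log 21 + Real.log (((Q : ℝ) + 1) / 21) := by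
        rw [← Real.log_mul (by norm_num) (by positivity), ← e2]
      linarith
    have e5 : Real.log 21 ≤ 3.1 := by
      rw [Real.log_le_iff_le_exp (by norm_num)]
      have e6 : Real.exp 3.1 = Real.exp 1 ^ 3 * Real.exp 0.1 := by
        rw [← Real.exp_nat_mul, ← Real.exp_add]
        norm_num
      have e7 := Real.exp_one_gt_d9
      have e8 : 1.1 ≤ Real.exp 0.1 := by
        have := Real.add_one_le_exp (0.1 : ℝ)
        linarith
      rw [e6]
      have e9 : (2.718 : ℝ) ^ 3 ≤ Real.exp 1 ^ 3 := pow_le_pow_left₀ (by norm_num) (by linarith) 3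
      calc (21 : ℝ) ≤ 2.718 ^ 3 * 1.1 := by norm_num
        _ ≤ _ := mul_le_mul e9 e8 (by norm_num) (by positivity)
    have e10 := Real.log_two_gt_d9
    nlinarith
  have h4 : (prs Q).card = Nat.primeCounting Q := by
    unfold prs
    rw [Nat.primeCounting, Nat.primeCounting', Nat.count_eq_card_filter_range]
  rw [h4, div_le_iff₀ (by positivity)]
  nlinarith

/-- the sum of the primes up to `Q` -/
lemma sum_prs (Q : ℕ) (hQ : 20 ≤ Q) : (Q : ℝ) ^ 2 / (16 * Real.log Q ^ 2) ≤ ∑ b ∈ prs Q, (b : ℝ) := by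
  have hQr : (20 : ℝ) ≤ Q := by exact_mod_cast hQ
  have hlog : 0 < Real.log Q := Real.log_pos (by linarith)
  obtain ⟨y, hy⟩ : ∃ y : ℝ, y = ((prs Q).card : ℝ) / 2 := ⟨_, rfl⟩
  have h1 := card_prs Q hQ
  have hy0 : 0 ≤ y := by rw [hy]; positivity
  have hyQ : (Q : ℝ) / (4 * Real.log Q) ≤ y := by
    rw [hy, le_div_iff₀ (by norm_num)]
    refine le_trans (le_of_eq ?_) h1
    field_simp
    norm_num
  have hsmall : (((prs Q).filter fun b : ℕ => (b : ℝ) ≤ y).card : ℝ) ≤ y := by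
    have h2 : (prs Q).filter (fun b : ℕ => (b : ℝ) ≤ y) ⊆ Icc 1 ⌊y⌋₊ := by
      intro b hb
      rw [mem_filter] at hb
      unfold prs at hb
      rw [mem_filter] at hb
      rw [mem_Icc]
      exact ⟨hb.1.2.one_lt.le, Nat.le_floor hb.2⟩
    have h3 := card_le_card h2
    rw [Nat.card_Icc, Nat.add_sub_cancel] at h3
    have h4 : (((prs Q).filter fun b : ℕ => (b : ℝ) ≤ y).card : ℝ) ≤ ⌊y⌋₊ := by exact_mod_cast h3
    exact h4.trans (Nat.floor_le hy0)
  have hbig : y ≤ (((prs Q).filter fun b : ℕ => ¬ (b : ℝ) ≤ y).card : ℝ) := by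
    have h2 := card_filter_add_card_filter_not (s := prs Q) (fun b : ℕ => (b : ℝ) ≤ y)
    have h3 : (((prs Q).filter fun b : ℕ => (b : ℝ) ≤ y).card : ℝ) + (((prs Q).filter fun b : ℕ => ¬ (b : ℝ) ≤ y).card : ℝ) =
        ((prs Q).card : ℝ) := by exact_mod_cast h2
    linarith
  have h5 : y * y ≤ ∑ b ∈ prs Q, (b : ℝ) := by
    calc y * y ≤ (((prs Q).filter fun b : ℕ => ¬ (b : ℝ) ≤ y).card : ℝ) * y := mul_le_mul_of_nonneg_right hbig hy0
      _ = ∑ _b ∈ (prs Q).filter (fun b : ℕ => ¬ (b : ℝ) ≤ y), y := by rw [sum_const, nsmul_eq_mul]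
      _ ≤ ∑ b ∈ (prs Q).filter (fun b : ℕ => ¬ (b : ℝ) ≤ y), (b : ℝ) :=
          sum_le_sum fun b hb => (not_le.1 (mem_filter.1 hb).2).le
      _ ≤ _ := sum_le_sum_of_subset_of_nonneg (filter_subset _ _) fun _ _ _ => Nat.cast_nonneg _
  refine le_trans ?_ h5
  have h6 : (Q : ℝ) ^ 2 / (16 * Real.log Q ^ 2) = (Q / (4 * Real.log Q)) * (Q / (4 * Real.log Q)) := by
    field_simp
    norm_num
  rw [h6]
  exact mul_le_mul hyQ hyQ (by positivity) hy0

/-- the triples `(b, u, i)`: `b ≤ Q` is a prime, `u < b` and `i < Q` -/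
def pts (Q : ℕ) : Finset (ℕ × ℕ × ℕ) := (range (Q + 1) ×ˢ range Q ×ˢ range Q).filter fun t => t.1.Prime ∧ t.2.1 < t.1

lemma pts_eq (Q : ℕ) : pts Q = trip (prs Q) Q := by
  unfold pts trip prs
  ext t
  simp only [mem_filter, mem_product]
  tauto

lemma prs_mem (Q b : ℕ) (hb : b ∈ prs Q) : b.Prime ∧ b ≤ Q := by
  unfold prs at hb
  rw [mem_filter, mem_range] at hb
  exact ⟨hb.2, by omega⟩

lemma card_pts (Q : ℕ) : ((pts Q).card : ℝ) = (∑ b ∈ prs Q, (b : ℝ)) * Q := by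
  have h1 : ((pts Q).card : ℝ) = ∑ _t ∈ trip (prs Q) Q, (1 : ℝ) := by
    rw [pts_eq, sum_const, nsmul_eq_mul, mul_one]
  rw [h1, sum_trip (prs Q) Q (fun b hb => (prs_mem Q b hb).2), sum_mul]
  apply sum_congr rfl
  intro b _
  simp only [sum_const, card_range, nsmul_eq_mul, mul_one]

/-- the law of a random point -/
theorem prime_law (B W : ℕ) (hB : 1 ≤ B) : ∃ N₀ : ℕ, ∀ N, N₀ ≤ N → ∀ M : ℕ, N ≤ B * M → M ≤ B * N →
    ∀ Q : ℕ, Real.log N ^ (2 * W + 5) ≤ Q → Q ≤ N →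
    Lw (B + 1) (W + 1) W N ((pts Q).image (pt M)) (push (pts Q) (fun _ => 1 / ((pts Q).card : ℝ)) (pt M)) := by
  obtain ⟨n1, h1⟩ := pts_law B W hB
  obtain ⟨n2, h2⟩ := ev_L' 20
  refine ⟨n1 + n2 + 3, fun N hN M hM1 hM2 Q hQ1 hQ2 => ?_⟩
  have a2 := h2 N (by omega)
  have hlaw := h1 N (by omega) M hM1 hM2
  obtain ⟨L, hLd⟩ : ∃ L, L = Real.log (N : ℝ) := ⟨_, rfl⟩
  rw [← hLd] at a2 hQ1 hlaw
  have hL1 : 1 ≤ L := by linarith
  have hL0 : 0 < L := by linarith
  have hQ20 : (20 : ℝ) ≤ Q := by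
    calc (20 : ℝ) ≤ L := a2
      _ = L ^ 1 := (pow_one L).symm
      _ ≤ L ^ (2 * W + 5) := pow_le_pow_right₀ hL1 (by omega)
      _ ≤ Q := hQ1
  have hQn : 20 ≤ Q := by exact_mod_cast hQ20
  have hQ0 : (0 : ℝ) < Q := by linarith
  have hlQ0 : 0 < Real.log Q := Real.log_pos (by linarith)
  have hlQ : Real.log Q ≤ L := by rw [hLd]; exact Real.log_le_log hQ0 (by exact_mod_cast hQ2)
  obtain ⟨S, hS⟩ : ∃ S : ℝ, S = ∑ b ∈ prs Q, (b : ℝ) := ⟨_, rfl⟩
  have hS1 := sum_prs Q hQn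
  rw [← hS] at hS1
  have hS2 : Q * L ^ (2 * W + 2) ≤ S := by
    refine le_trans ?_ hS1
    rw [le_div_iff₀ (by positivity)]
    calc Q * L ^ (2 * W + 2) * (16 * Real.log Q ^ 2) ≤ Q * L ^ (2 * W + 2) * (L * L ^ 2) := by
          apply mul_le_mul_of_nonneg_left _ (by positivity)
          exact mul_le_mul (by linarith) (pow_le_pow_left₀ hlQ0.le hlQ 2) (by positivity) hL0.le
      _ = Q * L ^ (2 * W + 5) := by
          rw [show 2 * W + 5 = 2 * W + 2 + 3 by ring, pow_add]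
          ring
      _ ≤ Q * Q := mul_le_mul_of_nonneg_left hQ1 hQ0.le
      _ = (Q : ℝ) ^ 2 := by ring
  have hS0 : 0 < S := lt_of_lt_of_le (by positivity) hS2
  have h3 := hlaw Q (by omega) hQ2 (prs Q) (fun b hb => (prs_mem Q b hb).1.two_le) (fun b hb => (prs_mem Q b hb).2) (by
    intro a ha b hb hab
    exact (Nat.coprime_primes (prs_mem Q a (Finset.mem_coe.1 ha)).1 (prs_mem Q b (Finset.mem_coe.1 hb)).1).2 hab)
    (fun b => (b : ℝ) / S) (fun b _ => by positivity) (by rw [← sum_div, ← hS, div_self hS0.ne']) (by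
    intro b hb
    have hbQ : (b : ℝ) ≤ Q := by exact_mod_cast (prs_mem Q b hb).2
    rw [div_le_div_iff₀ hS0 (by positivity), one_mul]
    exact (mul_le_mul_of_nonneg_right hbQ (by positivity)).trans hS2)
  have h4 : ∀ t ∈ trip (prs Q) Q, wt (fun b => (b : ℝ) / S) Q t = 1 / ((pts Q).card : ℝ) := by
    intro t ht
    unfold trip at ht
    rw [mem_filter, mem_product] at ht
    have hb0 : (0 : ℝ) < t.1 := by exact_mod_cast (prs_mem Q t.1 ht.1.1).1.pos
    rw [card_pts, ← hS]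
    unfold wt
    field_simp
  have h5 : push (trip (prs Q) Q) (wt (fun b => (b : ℝ) / S) Q) (pt M) = push (pts Q) (fun _ => 1 / ((pts Q).card : ℝ)) (pt M) := by
    funext v
    unfold push
    rw [← pts_eq] at h4 ⊢
    apply sum_congr rfl
    intro t ht
    exact h4 t (mem_filter.1 ht).1
  rw [h5, ← pts_eq] at h3
  exact h3

end Pool.Agent.N699.RP
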