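import Pool.Agent.W93.AU1
import Pool.Agent.W93.LM6

set_option autoImplicit false

/-! Measures with a small Fourier transform off the major arcs: the second moment of a correlation. -/

namespace Pool.Agent.N699.RP
open Finset
open Pool.Agent.H807R2.Dav
open Pool.Agent.H373R2.T7
open Pool.Agent.W93.DG
open Pool.Agent.W93.RD
open Pool.Agent.W93.TD

/-- the major arcs -/
def Mj (L δ α : ℝ) : Prop := ∃ q : ℕ, 1 ≤ q ∧ (q : ℝ) ≤ L ∧ ∃ c : ℤ, |α - c / q| ≤ δ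

open Classical in
/-- the second moment of a sum over frequencies -/
lemma core_var {ι : Type} (Ω : Finset ι) (p : ι → ℝ) (hp : ∀ ω ∈ Ω, 0 ≤ p ω) (hp1 : ∑ ω ∈ Ω, p ω = 1) (Y : ι → ℤ) (M : ℕ)
    (hM : 1 ≤ M) (A : ℕ → ℂ) (S : ℕ → Prop) (τ : ℝ) (hτ : 0 ≤ τ) (T : ℝ)
    (hchar : ∀ t : ℕ, ¬ S t → ‖∑ ω ∈ Ω, ((p ω : ℝ) : ℂ) * ee ((Y ω : ℝ) * ((t : ℝ) / (M : ℝ)))‖ ≤ τ)
    (hc1 : ∀ r ∈ range M, (((range M).filter fun r' => S (r' + (M - r))).card : ℝ) ≤ T)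
    (hc2 : ∀ r' ∈ range M, (((range M).filter fun r => S (r' + (M - r))).card : ℝ) ≤ T) :
    ∑ ω ∈ Ω, p ω * ‖EE A M (Y ω)‖ ^ 2 ≤ τ * (∑ r ∈ range M, ‖A r‖) ^ 2 + T * ∑ r ∈ range M, ‖A r‖ ^ 2 := by
  obtain ⟨g, hg⟩ : ∃ g : ℕ → ℝ, g = fun t => τ + (if S t then 1 else 0) := ⟨_, rfl⟩
  have hone : ∀ t : ℕ, ‖∑ ω ∈ Ω, ((p ω : ℝ) : ℂ) * ee ((Y ω : ℝ) * ((t : ℝ) / (M : ℝ)))‖ ≤ 1 := by
    intro t
    refine (norm_sum_le _ _).trans ?_
    rw [← hp1]
    apply sum_le_sum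
    intro ω hω
    rw [norm_mul, norm_ee, mul_one, Complex.norm_real, Real.norm_of_nonneg (hp ω hω)]
  have h1 := Pool.Agent.W93.AU.gen_var Ω p hp Y M hM A g (by
    intro t
    rw [hg]
    simp only
    split_ifs with h
    · have := hone t
      linarith
    · rw [add_zero]
      exact hchar t h)
  refine h1.trans ?_
  have hn : ∀ r : ℕ, 0 ≤ ‖A r‖ := fun r => norm_nonneg _
  have e1 : ∑ r ∈ range M, ‖A r‖ * ∑ r' ∈ range M, ‖A r'‖ * g (r' + (M - r)) ≤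
      ∑ r ∈ range M, ∑ r' ∈ range M, (τ * (‖A r‖ * ‖A r'‖) +
        (if S (r' + (M - r)) then (‖A r‖ ^ 2 + ‖A r'‖ ^ 2) / 2 else 0)) := by
    apply sum_le_sum
    intro r _
    rw [mul_sum]
    apply sum_le_sum
    intro r' _
    rw [hg]
    simp only
    split_ifs with h
    · nlinarith [sq_nonneg (‖A r‖ - ‖A r'‖), hn r, hn r']
    · nlinarith [hn r, hn r']
  refine e1.trans ?_
  have e2 : ∑ r ∈ range M, ∑ r' ∈ range M, (τ * (‖A r‖ * ‖A r'‖) +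
        (if S (r' + (M - r)) then (‖A r‖ ^ 2 + ‖A r'‖ ^ 2) / 2 else 0)) =
      τ * (∑ r ∈ range M, ‖A r‖) ^ 2 + (∑ r ∈ range M, ∑ r' ∈ range M, (if S (r' + (M - r)) then ‖A r‖ ^ 2 / 2 else 0) +
        ∑ r' ∈ range M, ∑ r ∈ range M, (if S (r' + (M - r)) then ‖A r'‖ ^ 2 / 2 else 0)) := by
    rw [sum_comm (s := range M) (t := range M) (f := fun r' r => (if S (r' + (M - r)) then ‖A r'‖ ^ 2 / 2 else 0)),
      ← sum_add_distrib, sq, sum_mul_sum, mul_sum, ← sum_add_distrib]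
    apply sum_congr rfl
    intro r _
    rw [← sum_add_distrib, mul_sum, ← sum_add_distrib]
    apply sum_congr rfl
    intro r' _
    split_ifs
    · ring
    · ring
  rw [e2]
  have e3 : ∑ r ∈ range M, ∑ r' ∈ range M, (if S (r' + (M - r)) then ‖A r‖ ^ 2 / 2 else 0) ≤ T * ∑ r ∈ range M, ‖A r‖ ^ 2 / 2 := by
    rw [mul_sum]
    apply sum_le_sum
    intro r hr
    rw [← sum_filter, sum_const, nsmul_eq_mul]
    exact mul_le_mul_of_nonneg_right (hc1 r hr) (by positivity)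
  have e4 : ∑ r' ∈ range M, ∑ r ∈ range M, (if S (r' + (M - r)) then ‖A r'‖ ^ 2 / 2 else 0) ≤ T * ∑ r ∈ range M, ‖A r‖ ^ 2 / 2 := by
    rw [mul_sum]
    apply sum_le_sum
    intro r hr
    rw [← sum_filter, sum_const, nsmul_eq_mul]
    exact mul_le_mul_of_nonneg_right (hc2 r hr) (by positivity)
  have e5 : ∑ r ∈ range M, ‖A r‖ ^ 2 / 2 = (∑ r ∈ range M, ‖A r‖ ^ 2) / 2 := by rw [sum_div]
  rw [e5] at e3 e4
  linarith

/-- a set of integers which are near to each other is small -/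
lemma card_near (T : Finset ℕ) (D : ℝ) (hD : 0 ≤ D) (h : ∀ t ∈ T, ∀ t' ∈ T, (t : ℝ) - t' ≤ D) : (T.card : ℝ) ≤ D + 1 := by
  rcases T.eq_empty_or_nonempty with h0 | h0
  · rw [h0, card_empty, Nat.cast_zero]
    linarith
  · obtain ⟨m, hm, hmin⟩ := T.exists_min_image id h0
    have hsub : T ⊆ Icc m (m + ⌊D⌋₊) := by
      intro t ht
      rw [mem_Icc]
      have h1 : m ≤ t := hmin t ht
      refine ⟨h1, ?_⟩
      have h2 := h t ht m hm
      have h3 : t - m ≤ ⌊D⌋₊ := by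
        apply Nat.le_floor
        rw [Nat.cast_sub h1]
        exact h2
      omega
    have h1 := card_le_card hsub
    rw [Nat.card_Icc] at h1
    have h2 : (T.card : ℝ) ≤ (⌊D⌋₊ : ℝ) + 1 := by
      have : T.card ≤ ⌊D⌋₊ + 1 := by omega
      exact_mod_cast this
    have h3 := Nat.floor_le hD
    linarith

open Classical in
/-- the number of the multiples of `κ / M` on the major arcs -/
lemma count_maj (κ M : ℕ) (hκ : 1 ≤ κ) (hM : 1 ≤ M) (L δ : ℝ) (hL : 1 ≤ L) (hδ : 0 < δ) (hLδ : L * δ < 1) (T : Finset ℕ)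
    (hT : ∀ t ∈ T, t ≤ 2 * M ∧ Mj L δ ((κ : ℝ) * (t / M))) :
    (T.card : ℝ) ≤ L * (2 * κ * L + 1) * (2 * δ * M + 1) := by
  have hκ1 : (1 : ℝ) ≤ κ := by exact_mod_cast hκ
  have hM0 : (0 : ℝ) < M := by exact_mod_cast hM
  obtain ⟨Q, hQ⟩ : ∃ Q, Q = ⌊L⌋₊ := ⟨_, rfl⟩
  have hQL : (Q : ℝ) ≤ L := by rw [hQ]; exact Nat.floor_le (by linarith)
  obtain ⟨W, hW⟩ : ∃ W : ℕ × ℕ → Finset ℕ, W = fun x : ℕ × ℕ => T.filter fun t : ℕ => |(κ : ℝ) * ((t : ℝ) / M) - (x.2 : ℝ) / x.1| ≤ δ := ⟨_, rfl⟩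
  have hsub : T ⊆ (Icc 1 Q ×ˢ range (2 * κ * Q + 1)).biUnion W := by
    intro t ht
    obtain ⟨ht2, q, hq1, hqL, c, hc⟩ := hT t ht
    have hq0 : (0 : ℝ) < q := by exact_mod_cast hq1
    have ht2' : (t : ℝ) / M ≤ 2 := by
      rw [div_le_iff₀ hM0]
      exact_mod_cast ht2
    have ht0 : (0 : ℝ) ≤ (t : ℝ) / M := by positivity
    obtain ⟨c1, c2⟩ := abs_le.1 hc
    have hqδ : (q : ℝ) * δ < 1 := lt_of_le_of_lt (mul_le_mul_of_nonneg_right hqL hδ.le) hLδ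
    have hcq : (c : ℝ) / q * q = c := div_mul_cancel₀ _ hq0.ne'
    have hc0 : -1 < c := by
      have h1 : -δ ≤ (c : ℝ) / q := by
        have : 0 ≤ (κ : ℝ) * (t / M) := by positivity
        linarith
      have h2 : -δ * q ≤ c := by
        rw [← hcq]
        exact mul_le_mul_of_nonneg_right h1 hq0.le
      have h3 : (-1 : ℝ) < c := by nlinarith
      exact_mod_cast h3
    have hcu : c < 2 * κ * q + 1 := by
      have h1 : (c : ℝ) / q ≤ κ * 2 + δ := by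
        have : (κ : ℝ) * (t / M) ≤ κ * 2 := mul_le_mul_of_nonneg_left ht2' (by linarith)
        linarith
      have h2 : (c : ℝ) ≤ (κ * 2 + δ) * q := by
        rw [← hcq]
        exact mul_le_mul_of_nonneg_right h1 hq0.le
      have h3 : (c : ℝ) < 2 * κ * q + 1 := by nlinarith
      exact_mod_cast h3
    obtain ⟨c', hc'⟩ : ∃ c' : ℕ, (c' : ℤ) = c := ⟨c.toNat, Int.toNat_of_nonneg (by omega)⟩
    have hqQ : q ≤ Q := by rw [hQ]; exact Nat.le_floor hqL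
    rw [mem_biUnion]
    refine ⟨(q, c'), ?_, ?_⟩
    · rw [mem_product, mem_Icc, mem_range]
      refine ⟨⟨hq1, hqQ⟩, ?_⟩
      have h1 : (c' : ℤ) < 2 * κ * q + 1 := by rw [hc']; exact hcu
      have h2 : c' < 2 * κ * q + 1 := by exact_mod_cast h1
      have h3 : 2 * κ * q ≤ 2 * κ * Q := Nat.mul_le_mul_left _ hqQ
      simp only
      omega
    · rw [hW]
      simp only
      rw [mem_filter]
      refine ⟨ht, ?_⟩
      have h1 : ((c' : ℕ) : ℝ) = (c : ℝ) := by exact_mod_cast hc'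
      rw [h1]
      exact hc
  have hWc : ∀ x ∈ Icc 1 Q ×ˢ range (2 * κ * Q + 1), ((W x).card : ℝ) ≤ 2 * δ * M + 1 := by
    intro x _
    apply card_near _ _ (by positivity)
    intro t ht t' ht'
    rw [hW] at ht ht'
    simp only at ht ht'
    rw [mem_filter] at ht ht'
    obtain ⟨a1, a2⟩ := abs_le.1 ht.2
    obtain ⟨b1, b2⟩ := abs_le.1 ht'.2
    have h1 : (κ : ℝ) * (t / M) - κ * (t' / M) ≤ 2 * δ := by linarith
    have h2 : (κ : ℝ) * ((t : ℝ) - t') ≤ 2 * δ * M := by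
      have : (κ : ℝ) * (t / M) - κ * (t' / M) = κ * ((t : ℝ) - t') / M := by ring
      rw [this, div_le_iff₀ hM0] at h1
      exact h1
    by_contra hcon
    push Not at hcon
    have h3 : 0 ≤ 2 * δ * M := by positivity
    nlinarith
  have h1 : (T.card : ℝ) ≤ ∑ x ∈ Icc 1 Q ×ˢ range (2 * κ * Q + 1), ((W x).card : ℝ) := by
    have := (card_le_card hsub).trans card_biUnion_le
    exact_mod_cast this
  refine (h1.trans (sum_le_sum hWc)).trans ?_
  rw [sum_const, nsmul_eq_mul, card_product, Nat.card_Icc, card_range]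
  apply mul_le_mul_of_nonneg_right _ (by positivity)
  push_cast
  have hQ0 : (0 : ℝ) ≤ Q := Nat.cast_nonneg _
  apply mul_le_mul hQL _ (by positivity) (by linarith)
  have : 2 * (κ : ℝ) * Q ≤ 2 * κ * L := mul_le_mul_of_nonneg_left hQL (by positivity)
  linarith

end Pool.Agent.N699.RP
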