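import Pool.Agent.N699.RP.Pts

set_option autoImplicit false

/-! The law of the random points, and images of measures. -/

namespace Pool.Agent.N699.RP
open Finset
open Pool.Agent.H807R2.Dav

/-- the image of a measure -/
noncomputable def push {τ : Type} (P : Finset τ) (ω : τ → ℝ) (val : τ → ℕ) (v : ℕ) : ℝ := ∑ t ∈ P.filter (fun t => val t = v), ω t

lemma push_sum {τ : Type} (P : Finset τ) (ω : τ → ℝ) (val : τ → ℕ) (f : ℕ → ℂ) :
    ∑ v ∈ P.image val, ((push P ω val v : ℝ) : ℂ) * f v = ∑ t ∈ P, ((ω t : ℝ) : ℂ) * f (val t) := by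
  classical
  rw [← sum_fiberwise_of_maps_to (s := P) (t := P.image val) (g := val) (fun t ht => mem_image_of_mem _ ht)]
  apply sum_congr rfl
  intro v _
  unfold push
  push_cast
  rw [sum_mul]
  apply sum_congr rfl
  intro t ht
  rw [(mem_filter.1 ht).2]

lemma push_sum1 {τ : Type} (P : Finset τ) (ω : τ → ℝ) (val : τ → ℕ) : ∑ v ∈ P.image val, push P ω val v = ∑ t ∈ P, ω t := by
  classical
  rw [← sum_fiberwise_of_maps_to (s := P) (t := P.image val) (g := val) (fun t ht => mem_image_of_mem _ ht)]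
  rfl

open Classical in
lemma push_tuple {τ : Type} {s : ℕ} (P : Fin s → Finset τ) (ω : Fin s → τ → ℝ) (val : Fin s → τ → ℕ) (bad : (Fin s → ℕ) → Prop) :
    ∑ m ∈ Fintype.piFinset (fun i => (P i).image (val i)), (if bad m then ∏ i, push (P i) (ω i) (val i) (m i) else 0) =
      ∑ x ∈ Fintype.piFinset P, (if bad (fun i => val i (x i)) then ∏ i, ω i (x i) else 0) := by
  have h1 : ∀ x ∈ Fintype.piFinset P, (fun i => val i (x i)) ∈ Fintype.piFinset (fun i => (P i).image (val i)) := by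
    intro x hx
    rw [Fintype.mem_piFinset] at hx ⊢
    exact fun i => mem_image_of_mem _ (hx i)
  rw [← sum_fiberwise_of_maps_to h1]
  apply sum_congr rfl
  intro m _
  have h2 : (Fintype.piFinset P).filter (fun x => (fun i => val i (x i)) = m) =
      Fintype.piFinset (fun i => (P i).filter (fun t => val i t = m i)) := by
    ext x
    rw [mem_filter, Fintype.mem_piFinset, Fintype.mem_piFinset]
    constructor
    · intro h i
      rw [mem_filter]
      exact ⟨h.1 i, congrFun h.2 i⟩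
    · intro h
      refine ⟨fun i => (mem_filter.1 (h i)).1, ?_⟩
      funext i
      exact (mem_filter.1 (h i)).2
  rw [h2]
  by_cases hb : bad m
  · rw [if_pos hb]
    unfold push
    rw [prod_univ_sum]
    apply sum_congr rfl
    intro x hx
    rw [Fintype.mem_piFinset] at hx
    have h3 : (fun i => val i (x i)) = m := by
      funext i
      exact (mem_filter.1 (hx i)).2
    rw [h3, if_pos hb]
  · rw [if_neg hb]
    symm
    apply sum_eq_zero
    intro x hx
    rw [Fintype.mem_piFinset] at hx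
    have h3 : (fun i => val i (x i)) = m := by
      funext i
      exact (mem_filter.1 (hx i)).2
    rw [h3, if_neg hb]

/-- the triples `(b, u, i)` with `u < b` and `i < I` -/
def trip (𝓑 : Finset ℕ) (I : ℕ) : Finset (ℕ × ℕ × ℕ) := (𝓑 ×ˢ range I ×ˢ range I).filter fun t => t.2.1 < t.1

/-- the point `u ⌊M / b⌋ + i` -/
def pt (M : ℕ) (t : ℕ × ℕ × ℕ) : ℕ := t.2.1 * (M / t.1) + t.2.2

lemma sum_trip {R : Type*} [AddCommMonoid R] (𝓑 : Finset ℕ) (I : ℕ) (hbI : ∀ b ∈ 𝓑, b ≤ I) (f : ℕ × ℕ × ℕ → R) :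
    ∑ t ∈ trip 𝓑 I, f t = ∑ b ∈ 𝓑, ∑ u ∈ range b, ∑ i ∈ range I, f (b, u, i) := by
  unfold trip
  rw [sum_filter, sum_product]
  apply sum_congr rfl
  intro b hb
  rw [sum_product]
  have h1 : range b = (range I).filter fun u => u < b := by
    ext u
    rw [mem_filter, mem_range, mem_range]
    have := hbI b hb
    constructor
    · intro h; exact ⟨by omega, h⟩
    · intro h; exact h.2
  rw [h1, sum_filter]
  apply sum_congr rfl
  intro u _
  split_ifs with h
  · rfl
  · exact sum_const_zero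

/-- the masses of the triples -/
noncomputable def wt (w : ℕ → ℝ) (I : ℕ) (t : ℕ × ℕ × ℕ) : ℝ := w t.1 * ((1 / (t.1 : ℝ)) * (1 / (I : ℝ)))

/-- the Fourier transform of the measure -/
lemma pts_ft (𝓑 : Finset ℕ) (I M : ℕ) (hbI : ∀ b ∈ 𝓑, b ≤ I) (w : ℕ → ℝ) (hw0 : ∀ b ∈ 𝓑, 0 ≤ w b) (α : ℝ) :
    ‖∑ t ∈ trip 𝓑 I, ((wt w I t : ℝ) : ℂ) * ee ((pt M t : ℝ) * α)‖ ≤
      (∑ b ∈ 𝓑, w b * ((1 / (b : ℝ)) * ‖∑ u ∈ range b, ee (u * (((M / b : ℕ) : ℝ) * α))‖)) *
        ((1 / (I : ℝ)) * ‖∑ i ∈ range I, ee (i * α)‖) := by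
  rw [sum_trip 𝓑 I hbI, sum_mul]
  refine (norm_sum_le _ _).trans ?_
  apply sum_le_sum
  intro b hb
  have h1 : ∑ u ∈ range b, ∑ i ∈ range I, ((wt w I (b, u, i) : ℝ) : ℂ) * ee ((pt M (b, u, i) : ℝ) * α) =
      ((w b * ((1 / (b : ℝ)) * (1 / (I : ℝ))) : ℝ) : ℂ) * ((∑ u ∈ range b, ee (u * (((M / b : ℕ) : ℝ) * α))) *
        (∑ i ∈ range I, ee (i * α))) := by
    rw [sum_mul_sum, mul_sum]
    apply sum_congr rfl
    intro u _
    rw [mul_sum]
    apply sum_congr rfl
    intro i _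
    have h2 : ((pt M (b, u, i) : ℕ) : ℝ) * α = u * (((M / b : ℕ) : ℝ) * α) + i * α := by
      unfold pt
      push_cast
      ring
    rw [h2, ee_add]
    unfold wt
    ring
  have h0 := hw0 b hb
  rw [h1, norm_mul, norm_mul, Complex.norm_real, Real.norm_of_nonneg (by positivity)]
  refine le_of_eq ?_
  ring

lemma wt_sum (𝓑 : Finset ℕ) (I : ℕ) (hI : 1 ≤ I) (hb2 : ∀ b ∈ 𝓑, 2 ≤ b) (hbI : ∀ b ∈ 𝓑, b ≤ I) (w : ℕ → ℝ) (hw1 : ∑ b ∈ 𝓑, w b = 1) :
    ∑ t ∈ trip 𝓑 I, wt w I t = 1 := by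
  rw [sum_trip 𝓑 I hbI, ← hw1]
  apply sum_congr rfl
  intro b hb
  have hb0 : (0 : ℝ) < b := by exact_mod_cast (by have := hb2 b hb; omega : 0 < b)
  have hI0 : (0 : ℝ) < I := by exact_mod_cast hI
  unfold wt
  simp only [sum_const, card_range, nsmul_eq_mul]
  field_simp

open Pool.Agent.H373R2.T7 in
/-- the law of the random points -/
theorem pts_law (B W : ℕ) (hB : 1 ≤ B) : ∃ N₀ : ℕ, ∀ N, N₀ ≤ N → ∀ M : ℕ, N ≤ B * M → M ≤ B * N →
    ∀ I : ℕ, 1 ≤ I → I ≤ N → ∀ 𝓑 : Finset ℕ, (∀ b ∈ 𝓑, 2 ≤ b) → (∀ b ∈ 𝓑, b ≤ I) → (𝓑 : Set ℕ).Pairwise Nat.Coprime →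
    ∀ w : ℕ → ℝ, (∀ b ∈ 𝓑, 0 ≤ w b) → ∑ b ∈ 𝓑, w b = 1 → (∀ b ∈ 𝓑, w b ≤ 1 / Real.log N ^ (2 * W + 2)) →
    Lw (B + 1) (W + 1) W N ((trip 𝓑 I).image (pt M)) (push (trip 𝓑 I) (wt w I) (pt M)) := by
  obtain ⟨n1, h1⟩ := ev_L' (2 * B + Real.log B + 40)
  refine ⟨n1 + 3, fun N hN M hM1 hM2 I hI hIN 𝓑 hb2 hbI hco w hw0 hw1 hwθ => ?_⟩
  have a1 := h1 N (by omega)
  obtain ⟨L, hLd⟩ : ∃ L, L = Real.log (N : ℝ) := ⟨_, rfl⟩
  rw [← hLd] at a1 hwθ
  have hBr : (1 : ℝ) ≤ B := by exact_mod_cast hB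
  have hlogB : 0 ≤ Real.log (B : ℝ) := Real.log_nonneg hBr
  have hL40 : 40 ≤ L := by linarith
  have hL1 : 1 ≤ L := by linarith
  have hL0 : 0 < L := by linarith
  have hN0 : (0 : ℝ) < N := by exact_mod_cast (by omega : 0 < N)
  have hMpos : 1 ≤ M := by
    by_contra hcon
    have : M = 0 := by omega
    rw [this, mul_zero] at hM1
    omega
  have hM0 : (0 : ℝ) < M := by exact_mod_cast hMpos
  have hwt0 : ∀ t ∈ trip 𝓑 I, 0 ≤ wt w I t := by
    intro t ht
    unfold trip at ht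
    rw [mem_filter, mem_product] at ht
    have := hw0 t.1 ht.1.1
    unfold wt
    positivity
  refine ⟨fun v _ => sum_nonneg fun t ht => hwt0 t (mem_filter.1 ht).1, ?_, ?_, ?_⟩
  · rw [push_sum1]
    exact wt_sum 𝓑 I hI hb2 hbI w hw1
  · intro v hv
    rw [mem_image] at hv
    obtain ⟨t, ht, rfl⟩ := hv
    unfold trip at ht
    rw [mem_filter, mem_product, mem_product, mem_range, mem_range] at ht
    unfold pt
    have e1 : t.2.1 * (M / t.1) ≤ M := by
      calc t.2.1 * (M / t.1) ≤ t.1 * (M / t.1) := Nat.mul_le_mul_right _ ht.2.le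
        _ ≤ M := Nat.mul_div_le M t.1
    have e2 : t.2.2 ≤ N := by omega
    calc t.2.1 * (M / t.1) + t.2.2 ≤ B * N + N := by omega
      _ = (B + 1) * N := by ring
  · intro α hα
    rw [push_sum (trip 𝓑 I) (wt w I) (pt M) (fun v => ee ((v : ℝ) * α))]
    refine (pts_ft 𝓑 I M hbI w hw0 α).trans ?_
    rw [← hLd] at hα ⊢
    have hfin := pts_dec (1 / (2 * L ^ W)) (1 / L ^ (2 * W + 2)) α (by positivity) (by positivity) M I hMpos hI 𝓑 hb2 hbI hco w hw0 hw1 hwθ
      (by
        have e1 : 2 / (1 / (2 * L ^ W)) + 1 ≤ 5 * L ^ W := by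
          have : 2 / (1 / (2 * L ^ W)) = 4 * L ^ W := by field_simp; norm_num
          rw [this]
          have : 1 ≤ L ^ W := one_le_pow₀ hL1
          linarith
        have e2 : 2 * Real.log M ≤ 4 * L := by
          have : Real.log M ≤ Real.log (B * N) := Real.log_le_log hM0 (by exact_mod_cast hM2)
          rw [Real.log_mul (by positivity) hN0.ne', ← hLd] at this
          linarith
        have e3 : 0 ≤ Real.log (M : ℝ) := Real.log_natCast_nonneg M
        calc (2 / (1 / (2 * L ^ W)) + 1) * (2 * Real.log M) * (1 / L ^ (2 * W + 2)) ≤ (5 * L ^ W) * (4 * L) * (1 / L ^ (2 * W + 2)) := by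
              apply mul_le_mul_of_nonneg_right _ (by positivity)
              exact mul_le_mul e1 e2 (by positivity) (by positivity)
          _ = (20 / L) * (1 / L ^ W) := by
              rw [show 2 * W + 2 = W + W + 2 by ring, pow_add, pow_add]
              field_simp
              norm_num
          _ ≤ (1 / 2) * (1 / L ^ W) := by
              apply mul_le_mul_of_nonneg_right _ (by positivity)
              rw [div_le_div_iff₀ hL0 (by norm_num)]
              linarith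
          _ = _ := by ring)
      (by
        intro k
        unfold Mj at hα
        push Not at hα
        have e1 := hα 1 le_rfl (by rw [Nat.cast_one]; exact one_le_pow₀ hL1) k
        rw [Nat.cast_one, div_one] at e1
        refine lt_of_le_of_lt ?_ e1
        have hNM : (N : ℝ) ≤ B * M := by exact_mod_cast hM1
        rw [div_le_div_iff₀ (by positivity) hN0]
        have e2 : L ^ (W + 1) * (1 / (2 * L ^ W) * M) = L * M / 2 := by
          rw [pow_succ]
          field_simp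
        rw [e2, one_mul]
        nlinarith)
    refine hfin.trans (le_of_eq ?_)
    field_simp

end Pool.Agent.N699.RP
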