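import Pool.Agent.N699.RP.Core
import Pool.Agent.N469.PT.Ws

set_option autoImplicit false

/-! Measures with a small Fourier transform off the major arcs: the one shift estimate. -/

namespace Pool.Agent.N699.RP
open Finset
open Pool.Agent.H807R2.Dav
open Pool.Agent.H373R2.T7
open Pool.Agent.W93.DG
open Pool.Agent.W93.RD
open Pool.Agent.W93.TD
open Pool.Agent.W93.LM (FC FC_pars EE_corrC)

open Classical in
/-- the correlation with an arbitrary function, in the mean square -/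
lemma corr_bound (κ cc N X M : ℕ) (hκ : 1 ≤ κ) (hX : 1 ≤ X) (hM : M = 2 * X) (hNX : N ≤ X) (L δ τ σ Φ Kc : ℝ) (hL : 1 ≤ L)
    (hδ : 0 < δ) (hLδ : L * δ < 1) (hτ : 0 ≤ τ) (hσ : 0 ≤ σ) (hKc : 0 ≤ Kc)
    (Ω : Finset ℕ) (p : ℕ → ℝ) (hp : ∀ v ∈ Ω, 0 ≤ p v) (hp1 : ∑ v ∈ Ω, p v = 1)
    (hsize : ∀ v ∈ Ω, N + (cc + κ * v) ≤ X)
    (hdec : ∀ α : ℝ, ¬ Mj L δ α → ‖∑ v ∈ Ω, ((p v : ℝ) : ℂ) * ee ((v : ℝ) * α)‖ ≤ τ)
    (F G : ℕ → ℂ) (hG : ∀ n ∈ Icc 1 N, ‖G n‖ ≤ Kc) (hsup : ∀ r, ‖FC F X M r‖ ≤ σ)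
    (hl2 : ∑ r ∈ range M, ‖FC F X M r‖ ^ 2 ≤ M * Φ) :
    ∑ v ∈ Ω, p v * ‖∑ n ∈ Icc 1 N, G n * F (n + (cc + κ * v))‖ ^ 2 ≤
      Kc ^ 2 * N * (τ * Φ + L * (2 * κ * L + 1) * (2 * δ * M + 1) * σ ^ 2 / M) := by
  have hM1 : 1 ≤ M := by omega
  have hM0 : (0 : ℝ) < M := by exact_mod_cast hM1
  obtain ⟨g, hg⟩ : ∃ g : ℕ → ℂ, g = fun n => if n ≤ N then G n else 0 := ⟨_, rfl⟩
  have hg0 : ∀ n, N < n → g n = 0 := by
    intro n hn
    rw [hg]
    simp only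
    rw [if_neg (by omega)]
  have hg1 : ∀ n, n ≤ N → g n = G n := by
    intro n hn
    rw [hg]
    simp only
    rw [if_pos hn]
  obtain ⟨A, hA⟩ : ∃ A : ℕ → ℂ, A = fun r => (starRingEnd ℂ) (FC (fun n => (starRingEnd ℂ) (g n)) X M r) * FC F X M r := ⟨_, rfl⟩
  have hAn : ∀ r, ‖A r‖ = ‖FC (fun n => (starRingEnd ℂ) (g n)) X M r‖ * ‖FC F X M r‖ := by
    intro r
    rw [hA]
    simp only
    rw [norm_mul, RCLike.norm_conj]
  have hg2 : ∑ r ∈ range M, ‖FC (fun n => (starRingEnd ℂ) (g n)) X M r‖ ^ 2 ≤ M * (Kc ^ 2 * N) := by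
    rw [FC_pars _ X M hM1 (by omega)]
    apply mul_le_mul_of_nonneg_left _ hM0.le
    have e1 : ∑ n ∈ Icc 1 X, ‖(starRingEnd ℂ) (g n)‖ ^ 2 = ∑ n ∈ Icc 1 N, ‖(starRingEnd ℂ) (g n)‖ ^ 2 := by
      symm
      apply sum_subset (Icc_subset_Icc_right hNX)
      intro n hn1 hn2
      rw [mem_Icc] at hn1 hn2
      rw [hg0 n (by omega), map_zero, norm_zero]
      norm_num
    rw [e1]
    have e2 : ∀ n ∈ Icc 1 N, ‖(starRingEnd ℂ) (g n)‖ ^ 2 ≤ Kc ^ 2 := by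
      intro n hn
      rw [RCLike.norm_conj, hg1 n (mem_Icc.1 hn).2]
      exact pow_le_pow_left₀ (norm_nonneg _) (hG n hn) 2
    refine (sum_le_sum e2).trans (le_of_eq ?_)
    rw [sum_const, nsmul_eq_mul, Nat.card_Icc, Nat.add_sub_cancel]
    ring
  -- the frequencies on the major arcs
  obtain ⟨S, hS⟩ : ∃ S : ℕ → Prop, S = fun t : ℕ => Mj L δ ((κ : ℝ) * ((t : ℝ) / M)) := ⟨_, rfl⟩
  obtain ⟨T, hT⟩ : ∃ T : ℝ, T = L * (2 * κ * L + 1) * (2 * δ * M + 1) := ⟨_, rfl⟩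
  have hcount : ∀ (P : Finset ℕ) (φ : ℕ → ℕ), Set.InjOn φ P → (∀ r ∈ P, φ r ≤ 2 * M ∧ S (φ r)) → (P.card : ℝ) ≤ T := by
    intro P φ hφ h
    have h1 := count_maj κ M hκ hM1 L δ hL hδ hLδ (P.image φ) (by
      intro t ht
      rw [mem_image] at ht
      obtain ⟨r, hr, rfl⟩ := ht
      have := h r hr
      rw [hS] at this
      exact this)
    rw [card_image_of_injOn hφ] at h1
    rw [hT]
    exact h1
  have hvar := core_var Ω p hp hp1 (fun v => ((cc + κ * v : ℕ) : ℤ)) M hM1 A S τ hτ T (by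
    intro t ht
    rw [hS] at ht
    have h1 := hdec _ ht
    have e1 : ∑ v ∈ Ω, ((p v : ℝ) : ℂ) * ee ((((cc + κ * v : ℕ) : ℤ) : ℝ) * ((t : ℝ) / (M : ℝ))) =
        ee ((cc : ℝ) * ((t : ℝ) / M)) * ∑ v ∈ Ω, ((p v : ℝ) : ℂ) * ee ((v : ℝ) * ((κ : ℝ) * ((t : ℝ) / M))) := by
      rw [mul_sum]
      apply sum_congr rfl
      intro v _
      have e2 : (((cc + κ * v : ℕ) : ℤ) : ℝ) * ((t : ℝ) / (M : ℝ)) =
          (cc : ℝ) * ((t : ℝ) / M) + (v : ℝ) * ((κ : ℝ) * ((t : ℝ) / M)) := by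
        push_cast
        ring
      rw [e2, ee_add]
      ring
    rw [e1, norm_mul, norm_ee, one_mul]
    exact h1) (by
    intro r hr
    rw [mem_range] at hr
    apply hcount _ (fun r' => r' + (M - r)) (fun a _ b _ h => by simpa using h)
    intro r' hr'
    rw [mem_filter, mem_range] at hr'
    exact ⟨by omega, hr'.2⟩) (by
    intro r' hr'
    rw [mem_range] at hr'
    apply hcount _ (fun r => r' + (M - r))
    · intro a ha b hb h
      have ha' := (mem_filter.1 (Finset.mem_coe.1 ha)).1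
      have hb' := (mem_filter.1 (Finset.mem_coe.1 hb)).1
      rw [mem_range] at ha' hb'
      simp only at h
      omega
    · intro r hr
      rw [mem_filter, mem_range] at hr
      exact ⟨by omega, hr.2⟩)
  have h2 : ∀ v ∈ Ω, p v * ‖EE A M (((cc + κ * v : ℕ) : ℤ))‖ ^ 2 =
      (M : ℝ) ^ 2 * (p v * ‖∑ n ∈ Icc 1 N, G n * F (n + (cc + κ * v))‖ ^ 2) := by
    intro v hv
    have h3 := EE_corrC g F X M N hX (by omega) hNX hg0 (((cc + κ * v : ℕ) : ℤ)) (by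
      have : (0 : ℤ) ≤ ((cc + κ * v : ℕ) : ℤ) := by positivity
      have : (0 : ℤ) < (X : ℤ) := by exact_mod_cast hX
      omega) (by
      have := hsize v hv
      exact_mod_cast this)
    rw [← hA] at h3
    rw [h3, norm_mul, Complex.norm_natCast, mul_pow]
    have h4 : ∑ n ∈ Icc 1 N, g n * (if 1 ≤ (n : ℤ) + ((cc + κ * v : ℕ) : ℤ) then F ((n : ℤ) + ((cc + κ * v : ℕ) : ℤ)).toNat else 0) =
        ∑ n ∈ Icc 1 N, G n * F (n + (cc + κ * v)) := by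
      apply sum_congr rfl
      intro n hn
      rw [mem_Icc] at hn
      rw [hg1 n hn.2]
      have h5 : (1 : ℤ) ≤ (n : ℤ) + ((cc + κ * v : ℕ) : ℤ) := by
        have : (0 : ℤ) ≤ ((cc + κ * v : ℕ) : ℤ) := by positivity
        have : (1 : ℤ) ≤ (n : ℤ) := by exact_mod_cast hn.1
        omega
      rw [if_pos h5]
      have h6 : ((n : ℤ) + ((cc + κ * v : ℕ) : ℤ)).toNat = n + (cc + κ * v) := by omega
      rw [h6]
    rw [h4]
    ring
  rw [sum_congr rfl h2, ← mul_sum] at hvar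
  have hF2 : 0 ≤ ∑ r ∈ range M, ‖FC F X M r‖ ^ 2 := sum_nonneg fun _ _ => by positivity
  have h5 : (∑ r ∈ range M, ‖A r‖) ^ 2 ≤ (M * (Kc ^ 2 * N)) * (M * Φ) := by
    have h6 := sum_mul_sq_le_sq_mul_sq (range M) (fun r => ‖FC (fun n => (starRingEnd ℂ) (g n)) X M r‖) (fun r => ‖FC F X M r‖)
    have h7 : ∑ r ∈ range M, ‖A r‖ = ∑ r ∈ range M, ‖FC (fun n => (starRingEnd ℂ) (g n)) X M r‖ * ‖FC F X M r‖ :=
      sum_congr rfl fun r _ => hAn r
    rw [h7]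
    refine h6.trans ?_
    exact mul_le_mul hg2 hl2 hF2 (by positivity)
  have h6 : ∑ r ∈ range M, ‖A r‖ ^ 2 ≤ σ ^ 2 * (M * (Kc ^ 2 * N)) := by
    have h7 : ∀ r ∈ range M, ‖A r‖ ^ 2 ≤ σ ^ 2 * ‖FC (fun n => (starRingEnd ℂ) (g n)) X M r‖ ^ 2 := by
      intro r _
      rw [hAn, mul_pow, mul_comm]
      exact mul_le_mul_of_nonneg_right (pow_le_pow_left₀ (norm_nonneg _) (hsup r) 2) (by positivity)
    refine (sum_le_sum h7).trans ?_
    rw [← mul_sum]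
    exact mul_le_mul_of_nonneg_left hg2 (by positivity)
  have hT0 : 0 ≤ T := by rw [hT]; positivity
  have h7 : (M : ℝ) ^ 2 * ∑ v ∈ Ω, p v * ‖∑ n ∈ Icc 1 N, G n * F (n + (cc + κ * v))‖ ^ 2 ≤
      τ * ((M * (Kc ^ 2 * N)) * (M * Φ)) + T * (σ ^ 2 * (M * (Kc ^ 2 * N))) :=
    hvar.trans (add_le_add (mul_le_mul_of_nonneg_left h5 hτ) (mul_le_mul_of_nonneg_left h6 hT0))
  rw [← hT]
  have h8 : τ * ((M * (Kc ^ 2 * N)) * (M * Φ)) + T * (σ ^ 2 * (M * (Kc ^ 2 * N))) =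
      (M : ℝ) ^ 2 * (Kc ^ 2 * N * (τ * Φ + T * σ ^ 2 / M)) := by
    field_simp
  rw [h8] at h7
  exact le_of_mul_le_mul_left h7 (by positivity)

/-- the class of the laws: measures with a small Fourier transform off the major arcs -/
def Lw (B E W N : ℕ) (Ω : Finset ℕ) (p : ℕ → ℝ) : Prop :=
  (∀ v ∈ Ω, 0 ≤ p v) ∧ ∑ v ∈ Ω, p v = 1 ∧ (∀ v ∈ Ω, v ≤ B * N) ∧
    ∀ α : ℝ, ¬ Mj (Real.log N ^ E) (Real.log N ^ E / N) α → ‖∑ v ∈ Ω, ((p v : ℝ) : ℂ) * ee ((v : ℝ) * α)‖ ≤ 1 / Real.log N ^ W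

/-- powers of the logarithm are small -/
lemma log_small (k : ℕ) (C : ℝ) : ∃ n0 : ℕ, ∀ N : ℕ, n0 ≤ N → C * Real.log N ^ k ≤ N := by
  have h1 : (fun x : ℝ => Real.log x ^ k) =o[Filter.atTop] (fun x : ℝ => x) := by
    have := isLittleO_log_rpow_rpow_atTop (k : ℝ) (one_pos)
    simp only [Real.rpow_natCast, Real.rpow_one] at this
    exact this
  have h2 := (h1.def (c := 1 / (|C| + 1)) (by positivity)).and (Filter.eventually_ge_atTop (1 : ℝ))
  have h3 := (tendsto_natCast_atTop_atTop (R := ℝ)).eventually h2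
  rw [Filter.eventually_atTop] at h3
  obtain ⟨n0, h3⟩ := h3
  refine ⟨n0, fun N hN => ?_⟩
  obtain ⟨h4, h5⟩ := h3 N hN
  have h6 : 0 ≤ Real.log N ^ k := pow_nonneg (Real.log_nonneg h5) k
  rw [Real.norm_of_nonneg h6, Real.norm_of_nonneg (by linarith), one_div, inv_mul_eq_div, le_div_iff₀ (by positivity)] at h4
  have h7 := le_abs_self C
  nlinarith

/-- the masses are small -/
lemma mass (B E W : ℕ) (hB : 1 ≤ B) : ∃ N₀ : ℕ, ∀ N, N₀ ≤ N → ∀ (Ω : Finset ℕ) (p : ℕ → ℝ), Lw B E W N Ω p →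
    ∀ v ∈ Ω, p v ≤ 2 / Real.log N ^ W := by
  obtain ⟨n1, h1⟩ := log_small (3 * E + 2 * W) (3 * (2 * (B + 1) + 1))
  obtain ⟨n2, h2⟩ := ev_L' 1
  obtain ⟨n3, h3⟩ := log_small (2 * E) 2
  refine ⟨n1 + n2 + n3 + 3, fun N hN Ω p hL v hv => ?_⟩
  obtain ⟨hp, hp1, hsize, hdec⟩ := hL
  have hN1 : 1 ≤ N := by omega
  have hN0 : (0 : ℝ) < N := by exact_mod_cast hN1
  have a1 := h1 N (by omega)
  have a2 := h2 N (by omega)
  have a3 := h3 N (by omega)
  obtain ⟨L, hLd⟩ : ∃ L, L = Real.log (N : ℝ) := ⟨_, rfl⟩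
  rw [← hLd] at a1 a2 a3 hdec ⊢
  have hL0 : 0 < L := by linarith
  obtain ⟨M, hM⟩ : ∃ M, M = B * N + 1 := ⟨_, rfl⟩
  have hM1 : 1 ≤ M := by omega
  have hM0 : (0 : ℝ) < M := by exact_mod_cast hM1
  have hMN : (M : ℝ) ≤ (B + 1) * N := by
    rw [hM]
    push_cast
    have : (1 : ℝ) ≤ N := by exact_mod_cast hN1
    linarith
  have h4 := sq_expand Ω (fun v => ((p v : ℝ) : ℂ)) (fun v => (v : ℤ)) M hM1
  have h5 : ∀ i ∈ Ω, ∑ j ∈ Ω, ((p i : ℝ) : ℂ) * (starRingEnd ℂ) ((p j : ℝ) : ℂ) * (if (M : ℤ) ∣ (i : ℤ) - (j : ℤ) then (M : ℂ) else 0) =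
      (((p i) ^ 2 * M : ℝ) : ℂ) := by
    intro i hi
    rw [sum_eq_single i]
    · rw [sub_self, if_pos (dvd_zero _), Complex.conj_ofReal]
      push_cast
      ring
    · intro j hj hne
      rw [if_neg, mul_zero]
      intro hd
      apply hne
      have b1 := hsize i hi
      have b2 := hsize j hj
      have h6 := Int.eq_zero_of_abs_lt_dvd hd (by rw [abs_lt]; constructor <;> omega)
      omega
    · intro h; exact absurd hi h
  rw [sum_congr rfl h5, ← Complex.ofReal_sum] at h4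
  have h6 : ∑ t ∈ range M, ‖∑ i ∈ Ω, ((p i : ℝ) : ℂ) * ee ((t : ℝ) * (((i : ℤ) : ℝ) / M))‖ ^ 2 = ∑ i ∈ Ω, (p i) ^ 2 * M := by
    exact_mod_cast h4
  classical
  have hone : ∀ t : ℕ, ‖∑ i ∈ Ω, ((p i : ℝ) : ℂ) * ee ((t : ℝ) * (((i : ℤ) : ℝ) / M))‖ ≤ 1 := by
    intro t
    refine (norm_sum_le _ _).trans ?_
    rw [← hp1]
    apply sum_le_sum
    intro ω hω
    rw [norm_mul, norm_ee, mul_one, Complex.norm_real, Real.norm_of_nonneg (hp ω hω)]
  have h7 : ∀ t ∈ range M, ‖∑ i ∈ Ω, ((p i : ℝ) : ℂ) * ee ((t : ℝ) * (((i : ℤ) : ℝ) / M))‖ ^ 2 ≤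
      (1 / L ^ W) ^ 2 + (if Mj (L ^ E) (L ^ E / N) (((1 : ℕ) : ℝ) * ((t : ℝ) / M)) then 1 else 0) := by
    intro t _
    split_ifs with h
    · have h8 := pow_le_one₀ (n := 2) (norm_nonneg _) (hone t)
      have : 0 ≤ (1 / L ^ W) ^ 2 := by positivity
      linarith
    · rw [add_zero]
      have h8 := hdec _ h
      apply pow_le_pow_left₀ (norm_nonneg _)
      refine le_trans (le_of_eq ?_) h8
      congr 1
      apply sum_congr rfl
      intro i _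
      congr 2
      push_cast
      ring
  have h8 := sum_le_sum h7
  rw [h6, sum_add_distrib, sum_const, card_range, nsmul_eq_mul, ← sum_filter, sum_const, nsmul_eq_mul, mul_one] at h8
  have hLE : 1 ≤ L ^ E := one_le_pow₀ a2
  have h9 := count_maj 1 M le_rfl hM1 (L ^ E) (L ^ E / N) hLE (by positivity) (by
    rw [← mul_div_assoc, div_lt_one hN0, ← pow_add, ← two_mul]
    have : 1 ≤ L ^ (2 * E) := one_le_pow₀ a2
    linarith) ((range M).filter fun t => Mj (L ^ E) (L ^ E / N) (((1 : ℕ) : ℝ) * ((t : ℝ) / M))) (by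
    intro t ht
    rw [mem_filter, mem_range] at ht
    exact ⟨by omega, ht.2⟩)
  obtain ⟨c, hc⟩ : ∃ c : ℝ, c = (((range M).filter fun t : ℕ => Mj (L ^ E) (L ^ E / N) (((1 : ℕ) : ℝ) * ((t : ℝ) / M))).card : ℝ) := ⟨_, rfl⟩
  rw [← hc] at h8 h9
  have h10 : (p v) ^ 2 * M ≤ M * (1 / L ^ W) ^ 2 + c := by
    refine le_trans ?_ h8
    exact single_le_sum (f := fun i => (p i) ^ 2 * M) (fun i _ => by positivity) hv
  have hc2 : c ≤ 3 * (2 * (B + 1) + 1) * L ^ (3 * E) := by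
    have e1 : 2 * (L ^ E / N) * M ≤ 2 * (B + 1) * L ^ E := by
      have : 2 * (L ^ E / N) * M ≤ 2 * (L ^ E / N) * ((B + 1) * N) := mul_le_mul_of_nonneg_left hMN (by positivity)
      refine this.trans (le_of_eq ?_)
      field_simp
    have e2 : 2 * ((1 : ℕ) : ℝ) * L ^ E + 1 ≤ 3 * L ^ E := by
      push_cast
      linarith
    have e3 : 2 * (L ^ E / N) * M + 1 ≤ (2 * (B + 1) + 1) * L ^ E := by linarith
    calc c ≤ L ^ E * (2 * ((1 : ℕ) : ℝ) * L ^ E + 1) * (2 * (L ^ E / N) * M + 1) := h9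
      _ ≤ L ^ E * (3 * L ^ E) * ((2 * (B + 1) + 1) * L ^ E) := by gcongr
      _ = _ := by ring
  have h11 : (p v) ^ 2 * M ≤ (2 / L ^ W) ^ 2 * M := by
    have e1 : c ≤ N / L ^ (2 * W) := by
      rw [le_div_iff₀ (by positivity)]
      calc c * L ^ (2 * W) ≤ 3 * (2 * (B + 1) + 1) * L ^ (3 * E) * L ^ (2 * W) := mul_le_mul_of_nonneg_right hc2 (by positivity)
        _ = 3 * (2 * (B + 1) + 1) * L ^ (3 * E + 2 * W) := by rw [pow_add]; ring
        _ ≤ N := a1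
    have e3 : (N : ℝ) ≤ M := by
      rw [hM]
      have : N ≤ B * N := Nat.le_mul_of_pos_left _ hB
      exact_mod_cast (by omega : N ≤ B * N + 1)
    have e4 : (N : ℝ) / L ^ (2 * W) ≤ M / L ^ (2 * W) := div_le_div_of_nonneg_right e3 (by positivity)
    have e5 : (2 / L ^ W) ^ 2 * M = 4 * (M / L ^ (2 * W)) := by
      rw [div_pow, ← pow_mul, mul_comm W 2]
      ring
    have e6 : M * (1 / L ^ W) ^ 2 = M / L ^ (2 * W) := by
      rw [div_pow, ← pow_mul, mul_comm W 2, one_pow]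
      ring
    rw [e5]
    rw [e6] at h10
    have e7 : 0 ≤ (M : ℝ) / L ^ (2 * W) := by positivity
    linarith
  have h12 : (p v) ^ 2 ≤ (2 / L ^ W) ^ 2 := le_of_mul_le_mul_right h11 hM0
  exact le_of_sq_le_sq h12 (by positivity)

theorem law_one (B E U κ Bc : ℕ) (hB : 1 ≤ B) (hκ : 1 ≤ κ) : Pool.Agent.N469.PT.OneLaw (Lw B E (2 * U + 3)) κ Bc U := by
  obtain ⟨A1, hA1⟩ : ∃ A1 : ℕ, A1 = 1 + (Bc + κ * B) := ⟨_, rfl⟩
  obtain ⟨U', hU'⟩ : ∃ U', U' = 3 * E + U + 1 := ⟨_, rfl⟩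
  obtain ⟨Bs, hBs⟩ := sup_diff U'
  refine ⟨Bc + κ * B, Bs + 1, fun E' => ?_⟩
  obtain ⟨n1, h1⟩ := hBs E'
  obtain ⟨n2, h2⟩ := G_sq E'
  obtain ⟨n3, h3⟩ := mass B E (2 * U + 3) hB
  obtain ⟨n4, h4⟩ := ev_L' ((2 : ℝ) ^ Bs + Real.log A1 + 112 * A1 + 3 * κ * (4 * A1 + 1) * A1 + 2)
  obtain ⟨n5, h5⟩ := log_small (2 * E) 2
  refine ⟨n1 + n2 + n3 + n4 + n5 + 3, fun N hN Ω p hlaw cc hcc => ?_⟩
  have hmass := h3 N (by omega) Ω p hlaw
  obtain ⟨hp, hp1, hsize, hdec⟩ := hlaw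
  have hN1 : 1 ≤ N := by omega
  have hN0 : (0 : ℝ) < N := by exact_mod_cast hN1
  have a4 := h4 N (by omega)
  have a5 := h5 N (by omega)
  obtain ⟨L, hLd⟩ : ∃ L, L = Real.log (N : ℝ) := ⟨_, rfl⟩
  rw [← hLd] at a4 a5 hmass hdec ⊢
  have hA1r : (1 : ℝ) ≤ A1 := by exact_mod_cast (by omega : 1 ≤ A1)
  have hκr : (1 : ℝ) ≤ κ := by exact_mod_cast hκ
  have hlogA : 0 ≤ Real.log (A1 : ℝ) := Real.log_nonneg hA1r
  have t1 : (0 : ℝ) < 2 ^ Bs := by positivity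
  have t2 : (0 : ℝ) ≤ 3 * κ * (4 * A1 + 1) * A1 := by positivity
  have hL2 : 2 ≤ L := by linarith
  have hL1 : 1 ≤ L := by linarith
  have hL0 : 0 < L := by linarith
  refine ⟨hp, hp1, ?_, ?_, ?_⟩
  · intro v hv
    refine (hmass v hv).trans ?_
    rw [div_le_div_iff₀ (by positivity) (by positivity), one_mul]
    calc 2 * L ^ U ≤ L * L ^ U := mul_le_mul_of_nonneg_right hL2 (by positivity)
      _ = L ^ (U + 1) := by rw [pow_succ]; ring
      _ ≤ L ^ (2 * U + 3) := pow_le_pow_right₀ hL1 (by omega)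
  · intro v hv
    calc cc + κ * v ≤ Bc * N + κ * (B * N) := add_le_add hcc (Nat.mul_le_mul_left _ (hsize v hv))
      _ = _ := by ring
  · intro z hz1 hz2 Kc hKc G hG
    obtain ⟨X, hX⟩ : ∃ X, X = A1 * N := ⟨_, rfl⟩
    obtain ⟨M, hM⟩ : ∃ M, M = 2 * X := ⟨_, rfl⟩
    have hNX : N ≤ X := by rw [hX]; exact Nat.le_mul_of_pos_left _ (by omega)
    have hX1 : 1 ≤ X := by omega
    have hX0 : (0 : ℝ) < X := by exact_mod_cast hX1
    have hXr : (X : ℝ) = A1 * N := by rw [hX]; push_cast; ring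
    have hMr : (M : ℝ) = 2 * (A1 * N) := by rw [hM, hX]; push_cast; ring
    have hM0 : (0 : ℝ) < M := by rw [hMr]; positivity
    have hlX1 : L ≤ Real.log (X : ℝ) := by rw [hLd]; exact Real.log_le_log hN0 (by exact_mod_cast hNX)
    have hlX2 : Real.log (X : ℝ) ≤ 2 * L := by
      rw [hXr, Real.log_mul (by positivity) hN0.ne', ← hLd]
      linarith
    have hlX0 : 0 < Real.log (X : ℝ) := by linarith
    have hz : 1 ≤ z := by
      have : (1 : ℝ) ≤ z := (one_le_pow₀ hL1).trans hz1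
      exact_mod_cast this
    have hz1' : Real.log (X : ℝ) ^ Bs ≤ z := by
      refine le_trans ?_ hz1
      calc Real.log (X : ℝ) ^ Bs ≤ (2 * L) ^ Bs := pow_le_pow_left₀ hlX0.le hlX2 _
        _ = 2 ^ Bs * L ^ Bs := mul_pow _ _ _
        _ ≤ L * L ^ Bs := mul_le_mul_of_nonneg_right (by linarith) (by positivity)
        _ = L ^ (Bs + 1) := by rw [pow_succ]; ring
    have hz2' : (z : ℝ) ≤ Real.log (X : ℝ) ^ E' := hz2.trans (pow_le_pow_left₀ hL0.le hlX1 _)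
    obtain ⟨F, hF⟩ : ∃ F : ℕ → ℂ, F = fun n => ((ArithmeticFunction.vonMangoldt n - lamz z n : ℝ) : ℂ) := ⟨_, rfl⟩
    have hsup : ∀ r, ‖FC F X M r‖ ≤ X / Real.log (X : ℝ) ^ U' := by
      intro r
      have := h1 X (by omega) z hz1' hz2' ((r : ℝ) / (M : ℝ))
      unfold FC
      rw [hF]
      exact this
    have hl2 : ∑ r ∈ range M, ‖FC F X M r‖ ^ 2 ≤ M * (14 * X * Real.log (X : ℝ) ^ 2) := by
      have := h2 X (by omega) M (by omega) z hz hz2'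
      unfold FC
      rw [hF]
      exact this
    have hLE : 1 ≤ L ^ E := one_le_pow₀ hL1
    have hcorr := corr_bound κ cc N X M hκ hX1 hM hNX (L ^ E) (L ^ E / N) (1 / L ^ (2 * U + 3)) (X / Real.log (X : ℝ) ^ U')
      (14 * X * Real.log (X : ℝ) ^ 2) Kc hLE (by positivity) (by
        rw [← mul_div_assoc, div_lt_one hN0, ← pow_add, ← two_mul]
        have : 1 ≤ L ^ (2 * E) := one_le_pow₀ hL1
        linarith) (by positivity) (by positivity) hKc.le Ω p hp hp1 (by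
        intro v hv
        calc N + (cc + κ * v) ≤ N + (Bc * N + κ * (B * N)) :=
              Nat.add_le_add_left (add_le_add hcc (Nat.mul_le_mul_left _ (hsize v hv))) _
          _ = X := by rw [hX, hA1]; ring) hdec F (fun n => ((G n : ℝ) : ℂ)) (by
        intro n hn
        rw [Complex.norm_real, Real.norm_eq_abs]
        exact hG n hn) hsup hl2
    have hterm : ∀ v ∈ Ω, ‖∑ n ∈ Icc 1 N, ((G n : ℝ) : ℂ) * F (n + (cc + κ * v))‖ =
        |∑ n ∈ Icc 1 N, G n * (lamI ((n : ℤ) + ((cc + κ * v : ℕ) : ℤ)) - lamzI z ((n : ℤ) + ((cc + κ * v : ℕ) : ℤ)))| := by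
      intro v _
      rw [← Real.norm_eq_abs, ← Complex.norm_real]
      congr 1
      push_cast
      apply sum_congr rfl
      intro n hn
      rw [mem_Icc] at hn
      rw [hF]
      simp only
      have h6 : (n : ℤ) + ((cc : ℤ) + (κ : ℤ) * (v : ℤ)) = ((n + (cc + κ * v) : ℕ) : ℤ) := by push_cast; ring
      rw [h6]
      unfold lamI lamzI
      have h7 : (1 : ℤ) ≤ ((n + (cc + κ * v) : ℕ) : ℤ) := by exact_mod_cast (by omega : 1 ≤ n + (cc + κ * v))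
      rw [if_pos h7, if_pos h7, Int.toNat_natCast]
      push_cast
      ring
    apply Pool.Agent.W93.TD.cs_w Ω p _ hp hp1 _ (by positivity)
    have hsum : ∑ v ∈ Ω, p v * (∑ n ∈ Icc 1 N, G n * (lamI ((n : ℤ) + ((cc + κ * v : ℕ) : ℤ)) -
        lamzI z ((n : ℤ) + ((cc + κ * v : ℕ) : ℤ)))) ^ 2 =
        ∑ v ∈ Ω, p v * ‖∑ n ∈ Icc 1 N, ((G n : ℝ) : ℂ) * F (n + (cc + κ * v))‖ ^ 2 := by
      apply sum_congr rfl
      intro v hv
      rw [hterm v hv, sq_abs]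
    rw [hsum]
    refine hcorr.trans ?_
    have e1 : 1 / L ^ (2 * U + 3) * (14 * X * Real.log (X : ℝ) ^ 2) ≤ N / L ^ (2 * U) * (1 / 2) := by
      have q1 : Real.log (X : ℝ) ^ 2 ≤ (2 * L) ^ 2 := pow_le_pow_left₀ hlX0.le hlX2 2
      calc 1 / L ^ (2 * U + 3) * (14 * X * Real.log (X : ℝ) ^ 2) ≤ 1 / L ^ (2 * U + 3) * (14 * X * (2 * L) ^ 2) :=
            mul_le_mul_of_nonneg_left (mul_le_mul_of_nonneg_left q1 (by positivity)) (by positivity)
        _ = N / L ^ (2 * U) * (56 * A1 / L) := by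
            rw [hXr, pow_add]
            field_simp
            ring
        _ ≤ _ := by
            apply mul_le_mul_of_nonneg_left _ (by positivity)
            rw [div_le_iff₀ hL0]
            linarith
    have e2 : L ^ E * (2 * κ * L ^ E + 1) * (2 * (L ^ E / N) * M + 1) ≤ 3 * κ * (4 * A1 + 1) * L ^ (3 * E) := by
      have q1 : 2 * (κ : ℝ) * L ^ E + 1 ≤ 3 * κ * L ^ E := by nlinarith
      have q2 : 2 * (L ^ E / N) * M + 1 ≤ (4 * A1 + 1) * L ^ E := by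
        have : 2 * (L ^ E / N) * M = 4 * A1 * L ^ E := by
          rw [hMr]
          field_simp
          ring
        rw [this]
        linarith
      calc L ^ E * (2 * κ * L ^ E + 1) * (2 * (L ^ E / N) * M + 1) ≤ L ^ E * (3 * κ * L ^ E) * ((4 * A1 + 1) * L ^ E) := by gcongr
        _ = _ := by ring
    have e3 : (X / Real.log (X : ℝ) ^ U') ^ 2 / M ≤ A1 / 2 * N / L ^ (2 * U') := by
      have q1 : (X / Real.log (X : ℝ) ^ U') ≤ X / L ^ U' :=
        div_le_div_of_nonneg_left hX0.le (by positivity) (pow_le_pow_left₀ hL0.le hlX1 _)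
      calc (X / Real.log (X : ℝ) ^ U') ^ 2 / M ≤ (X / L ^ U') ^ 2 / M := by gcongr
        _ = A1 / 2 * N / L ^ (2 * U') := by
            rw [hXr, hMr, div_pow, ← pow_mul, mul_comm U' 2]
            field_simp
    have e4 : L ^ E * (2 * κ * L ^ E + 1) * (2 * (L ^ E / N) * M + 1) * (X / Real.log (X : ℝ) ^ U') ^ 2 / M ≤
        N / L ^ (2 * U) * (1 / 2) := by
      rw [mul_div_assoc]
      calc L ^ E * (2 * κ * L ^ E + 1) * (2 * (L ^ E / N) * M + 1) * ((X / Real.log (X : ℝ) ^ U') ^ 2 / M) ≤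
            (3 * κ * (4 * A1 + 1) * L ^ (3 * E)) * (A1 / 2 * N / L ^ (2 * U')) := by
            apply mul_le_mul e2 e3 (by positivity) (by positivity)
        _ ≤ (3 * κ * (4 * A1 + 1) * L ^ (3 * E)) * (A1 / 2 * N / L ^ (3 * E + 2 * U + 1)) := by
            apply mul_le_mul_of_nonneg_left _ (by positivity)
            apply div_le_div_of_nonneg_left (by positivity) (by positivity)
            exact pow_le_pow_right₀ hL1 (by omega)
        _ = N / L ^ (2 * U) * ((3 * κ * (4 * A1 + 1) * A1) / (2 * L)) := by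
            rw [show 3 * E + 2 * U + 1 = 3 * E + (2 * U + 1) by ring, pow_add L (3 * E), pow_succ L (2 * U)]
            field_simp
        _ ≤ _ := by
            apply mul_le_mul_of_nonneg_left _ (by positivity)
            rw [div_le_iff₀ (by positivity)]
            linarith
    calc Kc ^ 2 * N * (1 / L ^ (2 * U + 3) * (14 * X * Real.log (X : ℝ) ^ 2) +
          L ^ E * (2 * κ * L ^ E + 1) * (2 * (L ^ E / N) * M + 1) * (X / Real.log (X : ℝ) ^ U') ^ 2 / M)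
        ≤ Kc ^ 2 * N * (N / L ^ (2 * U) * (1 / 2) + N / L ^ (2 * U) * (1 / 2)) := by
          apply mul_le_mul_of_nonneg_left (add_le_add e1 e4) (by positivity)
      _ = (Kc * (N / L ^ U)) ^ 2 := by
          rw [mul_comm 2 U, pow_mul]
          field_simp
          ring

end Pool.Agent.N699.RP
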