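import Pool.Agent.N699.RP.One

set_option autoImplicit false

/-! Small explicit sets: short intervals at the rational multiples `u M / b` for pairwise coprime `b`. -/

namespace Pool.Agent.N699.RP
open Finset
open Pool.Agent.H807R2.Dav

/-- geometric sums -/
lemma geo (n : ℕ) (x η : ℝ) (hη : 0 < η) (h : ∀ k : ℤ, η ≤ |x - k|) : ‖∑ m ∈ range n, ee (m * x)‖ ≤ 1 / (2 * η) := by
  obtain ⟨S, hS⟩ : ∃ S : ℂ, S = ∑ m ∈ range n, ee (m * x) := ⟨_, rfl⟩
  rw [← hS]
  obtain ⟨y, hy⟩ : ∃ y : ℝ, y = x - round x := ⟨_, rfl⟩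
  have hy1 : |y| ≤ 1 / 2 := by rw [hy]; exact abs_sub_round x
  have hy2 : η ≤ |y| := by rw [hy]; exact h _
  have hdd : dd x = dd |y| := by
    have h1 : dd x = dd y := by
      have h2 := dd_add_int y (round x)
      rw [hy, sub_add_cancel] at h2
      rw [h2, hy]
    rw [h1]
    rcases abs_choice y with h3 | h3
    · rw [h3]
    · rw [h3, dd_neg]
  have h1 : 4 * |y| ≤ dd x := by
    have h2 := dd_ge (abs_nonneg y) (by linarith)
    rw [min_eq_left (by linarith)] at h2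
    rw [hdd]
    exact h2
  have h2 : dd x * ‖S‖ ≤ 2 := by
    have h3 : (1 - ee x) * S = 1 - ee x ^ n := by
      rw [hS]
      simp only [ee_pow]
      have := geom_sum_mul (ee x) n
      linear_combination -this
    have h4 : dd x * ‖S‖ = ‖1 - ee x ^ n‖ := by
      rw [← h3, norm_mul]; rfl
    rw [h4]
    refine (norm_sub_le _ _).trans ?_
    rw [norm_pow, norm_ee, norm_one]
    norm_num
  rw [le_div_iff₀ (by positivity)]
  have h3 : 0 ≤ ‖S‖ := norm_nonneg _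
  nlinarith

/-- pairwise coprime divisors -/
lemma card_div (𝓑 : Finset ℕ) (hb : ∀ b ∈ 𝓑, 2 ≤ b) (hco : (𝓑 : Set ℕ).Pairwise Nat.Coprime) (j : ℤ) (hj : j ≠ 0) (M : ℕ)
    (hjM : |(j : ℝ)| ≤ M) : (((𝓑.filter fun b : ℕ => (b : ℤ) ∣ j)).card : ℝ) ≤ 2 * Real.log M := by
  obtain ⟨T, hT⟩ : ∃ T, T = 𝓑.filter fun b : ℕ => (b : ℤ) ∣ j := ⟨_, rfl⟩
  rw [← hT]
  have hj1 : 1 ≤ j.natAbs := Int.natAbs_pos.2 hj
  have h1 : ∏ b ∈ T, b ∣ j.natAbs := by
    apply Finset.prod_dvd_of_isRelPrime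
    · intro b hb' c hc' hbc
      rw [hT] at hb' hc'
      exact Nat.coprime_iff_isRelPrime.1
        (hco (Finset.mem_coe.2 (mem_filter.1 (Finset.mem_coe.1 hb')).1) (Finset.mem_coe.2 (mem_filter.1 (Finset.mem_coe.1 hc')).1) hbc)
    · intro b hb'
      rw [hT, mem_filter] at hb'
      exact Int.natCast_dvd.1 hb'.2
  have h2 : 2 ^ T.card ≤ j.natAbs := by
    refine le_trans ?_ (Nat.le_of_dvd hj1 h1)
    rw [← prod_const]
    exact prod_le_prod' fun b hb' => hb b (mem_filter.1 (by rw [hT] at hb'; exact hb')).1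
  have h3 : (j.natAbs : ℝ) = |(j : ℝ)| := by rw [Nat.cast_natAbs, Int.cast_abs]
  have h4 : (2 : ℝ) ^ T.card ≤ M := by
    have : ((2 ^ T.card : ℕ) : ℝ) ≤ (j.natAbs : ℝ) := by exact_mod_cast h2
    push_cast at this
    rw [h3] at this
    exact this.trans hjM
  have h5 : Real.log ((2 : ℝ) ^ T.card) ≤ Real.log M := Real.log_le_log (by positivity) h4
  rw [Real.log_pow] at h5
  have h6 := Real.log_two_gt_d9
  have h7 : (0 : ℝ) ≤ T.card := Nat.cast_nonneg _
  nlinarith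

open Classical in
/-- the Fourier transform of the set of the points -/
lemma pts_dec (ε θ α : ℝ) (hε : 0 < ε) (hθ : 0 ≤ θ) (M I : ℕ) (hM : 1 ≤ M) (hI : 1 ≤ I) (𝓑 : Finset ℕ) (hb2 : ∀ b ∈ 𝓑, 2 ≤ b)
    (hbI : ∀ b ∈ 𝓑, b ≤ I) (hco : (𝓑 : Set ℕ).Pairwise Nat.Coprime) (w : ℕ → ℝ) (hw0 : ∀ b ∈ 𝓑, 0 ≤ w b)
    (hw1 : ∑ b ∈ 𝓑, w b = 1) (hwθ : ∀ b ∈ 𝓑, w b ≤ θ)
    (hcard : (2 / ε + 1) * (2 * Real.log M) * θ ≤ ε) (hα : ∀ k : ℤ, 1 / (ε * M) < |α - k|) :
    (∑ b ∈ 𝓑, w b * ((1 / (b : ℝ)) * ‖∑ u ∈ range b, ee (u * (((M / b : ℕ) : ℝ) * α))‖)) *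
      ((1 / (I : ℝ)) * ‖∑ i ∈ range I, ee (i * α)‖) ≤ 2 * ε := by
  have hM0 : (0 : ℝ) < M := by exact_mod_cast hM
  have hI0 : (0 : ℝ) < I := by exact_mod_cast hI
  have hb0 : ∀ b ∈ 𝓑, (0 : ℝ) < b := fun b hb => by exact_mod_cast (by have := hb2 b hb; omega : 0 < b)
  have htriv : ∀ (n : ℕ) (x : ℝ), ‖∑ u ∈ range n, ee (u * x)‖ ≤ n := by
    intro n x
    refine (norm_sum_le _ _).trans ?_
    simp only [norm_ee, sum_const, card_range, nsmul_eq_mul, mul_one]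
    exact le_rfl
  have htb : ∀ b ∈ 𝓑, w b * ((1 / (b : ℝ)) * ‖∑ u ∈ range b, ee (u * (((M / b : ℕ) : ℝ) * α))‖) ≤ w b := by
    intro b hb
    have h0 := hb0 b hb
    have h1 : (1 / (b : ℝ)) * ‖∑ u ∈ range b, ee (u * (((M / b : ℕ) : ℝ) * α))‖ ≤ 1 := by
      rw [one_div, inv_mul_le_iff₀ h0, mul_one]
      exact htriv b _
    have := mul_le_mul_of_nonneg_left h1 (hw0 b hb)
    rwa [mul_one] at this
  have hti : (1 / (I : ℝ)) * ‖∑ i ∈ range I, ee (i * α)‖ ≤ 1 := by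
    rw [one_div, inv_mul_le_iff₀ hI0, mul_one]
    exact htriv I _
  have hti0 : 0 ≤ (1 / (I : ℝ)) * ‖∑ i ∈ range I, ee (i * α)‖ := by positivity
  have hsum1 : ∑ b ∈ 𝓑, w b * ((1 / (b : ℝ)) * ‖∑ u ∈ range b, ee (u * (((M / b : ℕ) : ℝ) * α))‖) ≤ 1 := by
    exact (sum_le_sum htb).trans (le_of_eq hw1)
  obtain ⟨k, hk⟩ : ∃ k : ℤ, k = round α := ⟨_, rfl⟩
  obtain ⟨β, hβ⟩ : ∃ β : ℝ, β = α - k := ⟨_, rfl⟩
  have hβ1 : |β| ≤ 1 / 2 := by rw [hβ, hk]; exact abs_sub_round α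
  have hβ2 : 1 / (ε * M) < |β| := by rw [hβ]; exact hα k
  rcases le_or_gt (1 / (2 * ε * I)) |β| with hcase | hcase
  · have h1 := geo I α (1 / (2 * ε * I)) (by positivity) (fun k' => by
      refine hcase.trans ?_
      rw [hβ, hk]
      exact round_le α k')
    have h2 : (1 / (I : ℝ)) * ‖∑ i ∈ range I, ee (i * α)‖ ≤ ε := by
      have h3 : 1 / (2 * (1 / (2 * ε * I))) = ε * I := by field_simp
      rw [h3] at h1
      rw [one_div, inv_mul_le_iff₀ hI0]
      linarith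
    calc _ ≤ (1 : ℝ) * ε := mul_le_mul hsum1 h2 hti0 zero_le_one
      _ ≤ 2 * ε := by linarith
  · -- the exceptional moduli
    obtain ⟨P, hP⟩ : ∃ P : ℕ → Prop, P = fun b => ∃ m : ℤ, |((M / b : ℕ) : ℝ) * β - m| < 1 / (2 * ε * b) := ⟨_, rfl⟩
    have hgood : ∀ b ∈ 𝓑.filter (fun b => ¬ P b),
        w b * ((1 / (b : ℝ)) * ‖∑ u ∈ range b, ee (u * (((M / b : ℕ) : ℝ) * α))‖) ≤ w b * ε := by
      intro b hb
      rw [mem_filter] at hb
      have h0 := hb0 b hb.1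
      have hnP := hb.2
      rw [hP] at hnP
      push Not at hnP
      have h1 := geo b (((M / b : ℕ) : ℝ) * α) (1 / (2 * ε * b)) (by positivity) (fun k' => by
        have h2 := hnP (k' - ((M / b : ℕ) : ℤ) * k)
        refine h2.trans (le_of_eq ?_)
        congr 1
        rw [hβ, Int.cast_sub, Int.cast_mul, Int.cast_natCast]
        ring)
      have h3 : 1 / (2 * (1 / (2 * ε * b))) = ε * b := by field_simp
      rw [h3] at h1
      apply mul_le_mul_of_nonneg_left _ (hw0 b hb.1)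
      rw [one_div, inv_mul_le_iff₀ h0]
      linarith
    obtain ⟨J, hJ⟩ : ∃ J : Finset ℤ, J = (Icc ⌈M * β - 1 / ε⌉ ⌊M * β + 1 / ε⌋).filter fun j => j ≠ 0 := ⟨_, rfl⟩
    have hMβ : 1 / ε < M * |β| := by
      have h1 : 1 / (ε * M) * M < |β| * M := mul_lt_mul_of_pos_right hβ2 hM0
      have h2 : 1 / (ε * M) * M = 1 / ε := by field_simp
      rw [h2] at h1
      linarith
    have hJabs : ∀ j ∈ J, |(j : ℝ)| ≤ M := by
      intro j hj
      rw [hJ, mem_filter, mem_Icc, Int.ceil_le, Int.le_floor] at hj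
      have h1 : |(j : ℝ) - M * β| ≤ 1 / ε := by
        rw [abs_le]
        constructor <;> linarith [hj.1.1, hj.1.2]
      have h2 : |(j : ℝ)| ≤ |(j : ℝ) - M * β| + |M * β| := by
        have := abs_add_le ((j : ℝ) - M * β) (M * β)
        rwa [sub_add_cancel] at this
      have h3 : |(M : ℝ) * β| = M * |β| := by rw [abs_mul, abs_of_pos hM0]
      rw [h3] at h2
      nlinarith
    have hJcard : (J.card : ℝ) ≤ 2 / ε + 1 := by
      have h1 : J.card ≤ (Icc ⌈M * β - 1 / ε⌉ ⌊M * β + 1 / ε⌋).card := by rw [hJ]; exact card_filter_le _ _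
      rw [Int.card_Icc] at h1
      have h2 : (((⌊M * β + 1 / ε⌋ + 1 - ⌈M * β - 1 / ε⌉).toNat : ℤ) : ℝ) ≤ 2 / ε + 1 := by
        rw [Int.toNat_eq_max, Int.cast_max]
        apply max_le
        · push_cast
          have h3 := Int.floor_le (M * β + 1 / ε)
          have h4 := Int.le_ceil (M * β - 1 / ε)
          have h5 : 2 / ε = 1 / ε + 1 / ε := by ring
          linarith
        · rw [Int.cast_zero]
          positivity
      have h3 : (J.card : ℝ) ≤ ((⌊M * β + 1 / ε⌋ + 1 - ⌈M * β - 1 / ε⌉).toNat : ℝ) := by exact_mod_cast h1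
      refine h3.trans ?_
      exact_mod_cast h2
    have hsub : 𝓑.filter P ⊆ J.biUnion fun j => 𝓑.filter fun b : ℕ => (b : ℤ) ∣ j := by
      intro b hb
      rw [mem_filter, hP] at hb
      obtain ⟨hb1, m, hm⟩ := hb
      have h0 := hb0 b hb1
      rw [mem_biUnion]
      have h1 : |(M : ℝ) * β - b * m| ≤ 1 / ε := by
        have e1 : (M : ℝ) * β - b * m = b * (((M / b : ℕ) : ℝ) * β - m) + ((M : ℝ) - b * ((M / b : ℕ) : ℝ)) * β := by ring
        have e2 : (M : ℝ) - b * ((M / b : ℕ) : ℝ) = ((M % b : ℕ) : ℝ) := by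
          have := Nat.div_add_mod M b
          have h3 : (b : ℝ) * ((M / b : ℕ) : ℝ) + ((M % b : ℕ) : ℝ) = M := by exact_mod_cast this
          linarith
        have e3 : ((M % b : ℕ) : ℝ) ≤ I := by
          have := Nat.mod_lt M (by have := hb2 b hb1; omega : b > 0)
          have := hbI b hb1
          exact_mod_cast (by omega : M % b ≤ I)
        have e4 : |b * (((M / b : ℕ) : ℝ) * β - m)| ≤ 1 / (2 * ε) := by
          rw [abs_mul, abs_of_pos h0]
          calc (b : ℝ) * |((M / b : ℕ) : ℝ) * β - m| ≤ b * (1 / (2 * ε * b)) := mul_le_mul_of_nonneg_left hm.le h0.le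
            _ = 1 / (2 * ε) := by field_simp
        have e5 : |((M % b : ℕ) : ℝ) * β| ≤ 1 / (2 * ε) := by
          rw [abs_mul, abs_of_nonneg (by positivity : (0 : ℝ) ≤ ((M % b : ℕ) : ℝ))]
          calc ((M % b : ℕ) : ℝ) * |β| ≤ I * (1 / (2 * ε * I)) := mul_le_mul e3 hcase.le (abs_nonneg _) hI0.le
            _ = 1 / (2 * ε) := by field_simp
        rw [e1, e2]
        refine (abs_add_le _ _).trans ?_
        have e6 : 1 / ε = 1 / (2 * ε) + 1 / (2 * ε) := by field_simp; norm_num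
        rw [e6]
        exact add_le_add e4 e5
      refine ⟨(b : ℤ) * m, ?_, ?_⟩
      · rw [hJ, mem_filter, mem_Icc, Int.ceil_le, Int.le_floor]
        obtain ⟨h2, h3⟩ := abs_le.1 h1
        refine ⟨⟨by push_cast; linarith, by push_cast; linarith⟩, ?_⟩
        intro h4
        have h5 : (b : ℝ) * m = 0 := by exact_mod_cast h4
        rw [h5, sub_zero, abs_mul, abs_of_pos hM0] at h1
        linarith
      · rw [mem_filter]
        exact ⟨hb1, Dvd.intro _ rfl⟩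
    have hbad : ((𝓑.filter P).card : ℝ) * θ ≤ ε := by
      have h1 : ((𝓑.filter P).card : ℝ) ≤ ∑ j ∈ J, ((𝓑.filter fun b : ℕ => (b : ℤ) ∣ j).card : ℝ) := by
        have := (card_le_card hsub).trans card_biUnion_le
        exact_mod_cast this
      have h2 : ∀ j ∈ J, ((𝓑.filter fun b : ℕ => (b : ℤ) ∣ j).card : ℝ) ≤ 2 * Real.log M := by
        intro j hj
        exact card_div 𝓑 hb2 hco j (by rw [hJ, mem_filter] at hj; exact hj.2) M (hJabs j hj)
      have h3 : ((𝓑.filter P).card : ℝ) ≤ (2 / ε + 1) * (2 * Real.log M) := by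
        refine h1.trans ((sum_le_sum h2).trans ?_)
        rw [sum_const, nsmul_eq_mul]
        apply mul_le_mul_of_nonneg_right hJcard
        have := Real.log_natCast_nonneg M
        positivity
      exact (mul_le_mul_of_nonneg_right h3 hθ).trans hcard
    have hsum2 : ∑ b ∈ 𝓑, w b * ((1 / (b : ℝ)) * ‖∑ u ∈ range b, ee (u * (((M / b : ℕ) : ℝ) * α))‖) ≤ 2 * ε := by
      rw [← sum_filter_add_sum_filter_not 𝓑 P]
      have h1 : ∑ b ∈ 𝓑.filter P, w b * ((1 / (b : ℝ)) * ‖∑ u ∈ range b, ee (u * (((M / b : ℕ) : ℝ) * α))‖) ≤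
          (𝓑.filter P).card * θ := by
        refine (sum_le_sum fun b hb => (htb b (mem_filter.1 hb).1).trans (hwθ b (mem_filter.1 hb).1)).trans ?_
        rw [sum_const, nsmul_eq_mul]
      have h2 : ∑ b ∈ 𝓑.filter (fun b => ¬ P b), w b * ((1 / (b : ℝ)) * ‖∑ u ∈ range b, ee (u * (((M / b : ℕ) : ℝ) * α))‖) ≤ 1 * ε := by
        refine (sum_le_sum hgood).trans ?_
        rw [← sum_mul]
        apply mul_le_mul_of_nonneg_right _ hε.le
        exact (sum_le_sum_of_subset_of_nonneg (filter_subset _ _) fun b hb _ => hw0 b hb).trans (le_of_eq hw1)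
      linarith
    calc _ ≤ (2 * ε) * 1 := mul_le_mul hsum2 hti hti0 (by positivity)
      _ = _ := by ring

end Pool.Agent.N699.RP
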